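import Pool.Agent.Helper905_SI.Orient

/-!
# MP_62c9a7_gt: cyclic symplectic plane curves of every degree are isotopic to complex curves

Homogeneous coordinates on `ℂℙ²` are written `((x, y), w)`; the pencil is the pencil of lines
through the point `(0 : 0 : 1)`, i.e. through the point `(x, y) = 0`.
-/

set_option autoImplicit false

open scoped ContDiff
open Pool.Agent.Helper905_SI

namespace Pool.Agent.Results.MP_62c9a7_gt.CyclicCurves

/-- `(u : w) ↦ (u : Ψ (u, w))`, `u = (x, y) ≠ 0`, is a smooth diffeomorphism of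
`ℂℙ² ∖ {(0 : 0 : 1)}` onto itself which maps every line through `(0 : 0 : 1)` to itself. -/
structure FibrePreservingDiffeo (Ψ : (ℂ × ℂ) × ℂ → ℂ) : Prop where
  homogeneous : ∀ c : ℂ, c ≠ 0 → ∀ u : ℂ × ℂ, u ≠ 0 → ∀ w : ℂ, Ψ (c • u, c * w) = c * Ψ (u, w)
  smooth : ContDiffOn ℝ ∞ Ψ {p | p.1 ≠ 0}
  inverse : ∃ Θ : (ℂ × ℂ) × ℂ → ℂ, ContDiffOn ℝ ∞ Θ {p | p.1 ≠ 0} ∧
    ∀ u : ℂ × ℂ, u ≠ 0 → ∀ w : ℂ, Θ (u, Ψ (u, w)) = w ∧ Ψ (u, Θ (u, w)) = w

/-- Let `d ≥ 2`, let `(u : w) ↦ (u : Ψ (u, w))` be a smooth diffeomorphism of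
`ℂℙ² ∖ {(0 : 0 : 1)}` which preserves every line of the pencil through `(0 : 0 : 1)`, and let `s`
be a smooth section of `𝒪(d)` over `ℂℙ¹` which vanishes transversely.  If the set
`C = {Ψ (u, w) ^ d = s (u)}` is a smooth symplectic curve in `ℂℙ²`, then `C` is symplectically
isotopic to a complex curve of degree `d`. -/
theorem result (d : ℕ) (hd : 2 ≤ d) (Ψ : (ℂ × ℂ) × ℂ → ℂ) (hΨ : FibrePreservingDiffeo Ψ)
    (s : ℂ × ℂ → ℂ) (hs : IsSection d s)
    (htr : ∀ u : ℂ × ℂ, u ≠ 0 → s u = 0 → Function.Surjective (fderiv ℝ s u))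
    (C : Set CP2) (hC : IsSymplecticCurve C)
    (hCs : cone C = {v | (v 0, v 1) ≠ (0 : ℂ × ℂ) ∧ Ψ ((v 0, v 1), v 2) ^ d = s (v 0, v 1)}) :
    ∃ C' : Set CP2, IsComplexCurve d C' ∧ SymplecticallyIsotopic C C' := by
  obtain ⟨Θ, hΘ, hΨΘ⟩ := hΨ.inverse
  have hhom : IsHomog 1 Ψ := by
    intro c hc p hp
    rw [pow_one]
    exact hΨ.homogeneous c hc p.1 hp p.2
  have hl : ∀ p : X, p.1 ≠ 0 → Θ (p.1, Ψ p) = p.2 := fun p hp => (hΨΘ p.1 hp p.2).1
  have hr : ∀ p : X, p.1 ≠ 0 → Ψ (p.1, Θ p) = p.2 := fun p hp => (hΨΘ p.1 hp p.2).2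
  have hD : IsFibreDiffeo Ψ Θ :=
    ⟨hhom, hΨ.smooth, hΘ, hl, hr, orientation hhom hΨ.smooth hΘ hl⟩
  have hFhom : IsHomog d (fun p : X => Ψ p ^ d - s p.1) := by
    intro c hc p hp
    have h1 := hhom c hc p hp
    have h2 := hs.hom c hc p.1 hp
    simp only [Prod.smul_fst]
    rw [h1, h2]
    ring
  have hCeq : C = curve (fun p : X => Ψ p ^ d - s p.1) := by
    have hcone : cone C = cone (curve (fun p : X => Ψ p ^ d - s p.1)) := by
      rw [hCs]
      ext v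
      rw [mem_cone_curve hFhom]
      simp only [Set.mem_ofPred_eq, toX_apply, sub_eq_zero]
    ext p
    have h1 := Set.ext_iff.1 hcone p.rep
    have h2 : ∀ D : Set CP2, p.rep ∈ cone D ↔ p ∈ D := by
      intro D
      constructor
      · rintro ⟨h, hD⟩
        rwa [Projectivization.mk_rep] at hD
      · intro hD
        refine ⟨p.rep_nonzero, ?_⟩
        rwa [Projectivization.mk_rep]
    rwa [h2, h2] at h1
  subst hCeq
  exact cyclic_isotopic hd hD hs htr hC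

end Pool.Agent.Results.MP_62c9a7_gt.CyclicCurves
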