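import Pool.Agent.Helper905_HF.Braid

/-!
# MP_62c9a7_gt: half twist factorizations of the full twist which lift to the torus knot group

`TorusGroup (d - 1)` is the group `K = ⟨x, y ∣ x ^ d y ^ (d - 1) = 1⟩` of the torus knot of type
`(d, d - 1)`, with central element `x ^ d` and meridians the conjugates of `x y`; `Braid (d - 1)`
is the braid group on `d` strands.  `rho : K → B_d` sends `x` to `δ⁻¹`, where
`δ = σ_0 σ_1 ⋯ σ_(d-2)` and `δ ^ d = Δ ^ 2`, and `y` to `δ σ_0`, hence meridians to half twists.
-/

set_option autoImplicit false

open Pool.Agent.Helper905_HF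

namespace Pool.Agent.Results.MP_62c9a7_gt.TorusFactorizations

/-- Let `d = q + 1 ≥ 3` and `m ≥ 0`, and let `h = (h_1, …, h_N)` be a tuple of half twists in the
braid group on `d` strands which lifts, along `rho : K → B_d`, to a tuple `T` of meridians of the
torus knot group `K = ⟨x, y ∣ x ^ d y ^ (d - 1)⟩` with product `x ^ (- d m)`; thus the product of
`h` is the `m`-th power of the full twist.  Then `h` is Hurwitz equivalent to the factorization
`(σ_0, …, σ_(d-2))` repeated `d m` times (for `m = 1` it is the one given by the smooth complex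
plane curves of degree `d`).  More precisely `T` is Hurwitz equivalent, in `K`, to a fixed tuple
`stdK` of meridians whose image under `rho` is this factorization. -/
theorem result (q : ℕ) (hq : 2 ≤ q) (m : ℕ) (T : List (TorusGroup q)) (hT : Meridians q T)
    (hprod : T.prod = (tx q ^ (q + 1)) ^ (-(m : ℤ))) :
    HurwitzEquiv T (stdK q m) ∧ (stdK q m).map (rho q (by omega)) = stdB q m ∧
      HurwitzEquiv (T.map (rho q (by omega))) (stdB q m) :=
  ⟨torus_unique hq _ _ _ hT (stdK_mer q m) hprod (stdK_prod q m), rho_std q (by omega) m,
    braid_std hq m T hT hprod⟩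

end Pool.Agent.Results.MP_62c9a7_gt.TorusFactorizations
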